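import Pool.Agent.Helper86.TC8.Stmts

set_option autoImplicit false

namespace Pool.Agent.Helper66.TC8

open Finset Pool.Agent.Helper86.TC8

theorem col1 : ∀ c x y, nxt c x y = true → ecol c x = ecol c.inv y ∧ vcol x ≠ vcol y := by
  intro c x y
  rcases x with ⟨xs, xP, xm, xB⟩
  rcases y with ⟨ys, yP, ym, yB⟩
  cases c <;> cases xs <;> cases xP <;> cases xm <;> cases xB <;> cases ys <;> cases yP <;>
    cases ym <;> cases yB <;> decide

theorem col2 : ∀ c x, ecol c x ≠ vcol x := by
  intro c x
  rcases x with ⟨xs, xP, xm, xB⟩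
  cases c <;> cases xs <;> cases xP <;> cases xm <;> cases xB <;> decide

theorem col3 : ∀ c c' x, c ≠ c' → ecol c x ≠ ecol c' x := by
  intro c c' x
  rcases x with ⟨xs, xP, xm, xB⟩
  cases c <;> cases c' <;> cases xs <;> cases xP <;> cases xm <;> cases xB <;> decide

theorem col4 : ∀ c x y, nxt c x y = nxt c.inv y x := by
  intro c x y
  rcases x with ⟨xs, xP, xm, xB⟩
  rcases y with ⟨ys, yP, ym, yB⟩
  cases c <;> cases xs <;> cases xP <;> cases xm <;> cases xB <;> cases ys <;> cases yP <;>
    cases ym <;> cases yB <;> decide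

theorem col5 : ∀ c x, ∑ y, kn c x y = 4 := by
  intro c x
  rcases x with ⟨xs, xP, xm, xB⟩
  cases c <;> cases xs <;> cases xP <;> cases xm <;> cases xB <;> decide

theorem kw_sum (c : L) (x : St) : ∑ y, kw c x y = 1 := by
  unfold kw
  rw [← Finset.sum_div, ← Nat.cast_sum, col5]
  norm_num

theorem kw_nonneg (c : L) (x y : St) : 0 ≤ kw c x y := by
  unfold kw
  positivity

theorem kw_ne (c : L) (x y : St) : kw c x y ≠ 0 ↔ nxt c x y = true := by
  unfold kw
  constructor
  · intro h
    by_contra h'
    apply h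
    cases c <;> simp [kn, h']
  · intro h
    have : kn c x y ≠ 0 := by
      cases c
      · simp [kn, h]
      · simp only [kn, h, if_true]
        split_ifs <;> norm_num
      · simp only [kn, h, if_true]
        split_ifs <;> norm_num
    intro h2
    rw [div_eq_zero_iff] at h2
    rcases h2 with h2 | h2
    · exact this (by exact_mod_cast h2)
    · norm_num at h2

theorem st_COL : ST_COL :=
  ⟨col1, col2, col3, col4, kw_sum, kw_nonneg, kw_ne⟩

end Pool.Agent.Helper66.TC8
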