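import Pool.Agent.Helper86.TC8.Stmts

set_option autoImplicit false

namespace Pool.Agent.Helper66.TC8

open Finset Pool.Agent.Helper86.TC8
open scoped Classical

theorem sum_Tr_aux (d : ℕ) (f : St × Tr d × Tr d → ℝ) :
    ∑ t : St × Tr d × Tr d, f t = ∑ s : St, ∑ t1 : Tr d, ∑ t2 : Tr d, f (s, t1, t2) := by
  rw [Fintype.sum_prod_type]
  refine Finset.sum_congr rfl fun s _ => ?_
  rw [Fintype.sum_prod_type]

theorem sum_Tr_succ (d : ℕ) (f : Tr (d + 1) → ℝ) :
    ∑ t : Tr (d + 1), f t = ∑ s : St, ∑ t1 : Tr d, ∑ t2 : Tr d, f (s, t1, t2) :=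
  sum_Tr_aux d f

theorem st_LAWT : ST_LAWT := by
  intro d
  induction d with
  | zero =>
    intro a st M
    have h : ∑ t : Tr 0, (if root 0 t = st then wtr 0 a t * M (feas 0 a t) else 0) =
      ∑ t : St, (if t = st then 1 * M {pair a t} else 0) := rfl
    rw [h]
    simp [lawE]
  | succ d ih =>
    intro a st M
    rw [sum_Tr_succ]
    have h1 : ∀ s : St, ∑ t1 : Tr d, ∑ t2 : Tr d,
        (if root (d + 1) (s, t1, t2) = st then wtr (d + 1) a (s, t1, t2) *
          M (feas (d + 1) a (s, t1, t2)) else 0) =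
        if s = st then ∑ t1 : Tr d, ∑ t2 : Tr d, (kw (k1 a) s (root d t1) * kw (k2 a) s (root d t2) *
          wtr d (k1 a) t1 * wtr d (k2 a) t2) * M (comb (feas d (k1 a) t1) (feas d (k2 a) t2)) else 0 := by
      intro s
      by_cases hs : s = st
      · rw [if_pos hs]
        refine Finset.sum_congr rfl fun t1 _ => Finset.sum_congr rfl fun t2 _ => ?_
        have : root (d + 1) (s, t1, t2) = st := hs
        rw [if_pos this]
        rfl
      · rw [if_neg hs]
        refine Finset.sum_eq_zero fun t1 _ => Finset.sum_eq_zero fun t2 _ => ?_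
        have : ¬ root (d + 1) (s, t1, t2) = st := hs
        rw [if_neg this]
    rw [Finset.sum_congr rfl fun s _ => h1 s, Finset.sum_ite_eq' Finset.univ st,
      if_pos (Finset.mem_univ _)]
    show _ = ∑ x : St, ∑ y : St, kw (k1 a) st x * kw (k2 a) st y *
      lawE d (k1 a) x (fun X => lawE d (k2 a) y (fun Y => M (comb X Y)))
    have h2 : ∀ t1 : Tr d, ∑ t2 : Tr d, (kw (k1 a) st (root d t1) * kw (k2 a) st (root d t2) *
          wtr d (k1 a) t1 * wtr d (k2 a) t2) * M (comb (feas d (k1 a) t1) (feas d (k2 a) t2)) =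
        ∑ y : St, (kw (k1 a) st (root d t1) * kw (k2 a) st y * wtr d (k1 a) t1) *
          lawE d (k2 a) y (fun Y => M (comb (feas d (k1 a) t1) Y)) := by
      intro t1
      have h3 : ∀ y : St, (kw (k1 a) st (root d t1) * kw (k2 a) st y * wtr d (k1 a) t1) *
          lawE d (k2 a) y (fun Y => M (comb (feas d (k1 a) t1) Y)) =
          ∑ t2 : Tr d, if root d t2 = y then
            (kw (k1 a) st (root d t1) * kw (k2 a) st (root d t2) *
          wtr d (k1 a) t1 * wtr d (k2 a) t2) * M (comb (feas d (k1 a) t1) (feas d (k2 a) t2))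
          else 0 := by
        intro y
        rw [← ih, Finset.mul_sum]
        refine Finset.sum_congr rfl fun t2 _ => ?_
        by_cases hy : root d t2 = y
        · rw [if_pos hy, if_pos hy, hy]
          ring
        · rw [if_neg hy, if_neg hy, mul_zero]
      rw [Finset.sum_congr rfl fun y _ => h3 y, Finset.sum_comm]
      refine Finset.sum_congr rfl fun t2 _ => ?_
      rw [Finset.sum_ite_eq Finset.univ (root d t2), if_pos (Finset.mem_univ _)]
    rw [Finset.sum_congr rfl fun t1 _ => h2 t1, Finset.sum_comm]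
    rw [Finset.sum_comm (s := (Finset.univ : Finset St)) (t := (Finset.univ : Finset St))]
    refine Finset.sum_congr rfl fun y _ => ?_
    have h4 : ∀ x : St, kw (k1 a) st x * kw (k2 a) st y *
        lawE d (k1 a) x (fun X => lawE d (k2 a) y (fun Y => M (comb X Y))) =
        ∑ t1 : Tr d, if root d t1 = x then (kw (k1 a) st (root d t1) * kw (k2 a) st y *
          wtr d (k1 a) t1) * lawE d (k2 a) y (fun Y => M (comb (feas d (k1 a) t1) Y)) else 0 := by
      intro x
      rw [← ih, Finset.mul_sum]
      refine Finset.sum_congr rfl fun t1 _ => ?_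
      by_cases hx : root d t1 = x
      · rw [if_pos hx, if_pos hx, hx]
        ring
      · rw [if_neg hx, if_neg hx, mul_zero]
    rw [Finset.sum_congr rfl fun x _ => h4 x, Finset.sum_comm]
    refine Finset.sum_congr rfl fun t1 _ => ?_
    rw [Finset.sum_ite_eq Finset.univ (root d t1), if_pos (Finset.mem_univ _)]

end Pool.Agent.Helper66.TC8
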