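import Pool.Agent.Helper86.TC8.Stmts

set_option autoImplicit false

namespace Pool.Agent.Helper66.TC8

open Finset Pool.Agent.Helper86.TC8
open scoped Classical

theorem card_cube (ι : Type) [Fintype ι] :
    ((univ : Finset (ι → Bool)).card : ℝ) = (2 : ℝ) ^ Fintype.card ι := by
  rw [Finset.card_univ, Fintype.card_fun]
  simp

theorem pr_mono {ι : Type} [Fintype ι] (A B : (ι → Bool) → Prop) (h : ∀ ω, A ω → B ω) :
    pr A ≤ pr B := by
  unfold pr
  apply div_le_div_of_nonneg_right _ (by positivity)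
  exact_mod_cast Finset.card_le_card (Finset.monotone_filter_right _ fun ω _ => h ω)

theorem pr_nonneg {ι : Type} [Fintype ι] (A : (ι → Bool) → Prop) : 0 ≤ pr A := by
  unfold pr
  positivity

theorem pr_le_one {ι : Type} [Fintype ι] (A : (ι → Bool) → Prop) : pr A ≤ 1 := by
  unfold pr
  rw [div_le_one (by positivity), ← card_cube]
  exact_mod_cast Finset.card_filter_le _ _

theorem pr_union {ι : Type} [Fintype ι] (κ : Type) (F : Finset κ) (A : (ι → Bool) → Prop)
    (B : κ → (ι → Bool) → Prop) (h : ∀ ω, A ω → ∃ k ∈ F, B k ω) :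
    pr A ≤ ∑ k ∈ F, pr (B k) := by
  unfold pr
  rw [← Finset.sum_div]
  apply div_le_div_of_nonneg_right _ (by positivity)
  have h1 : (univ.filter A).card ≤ (F.biUnion fun k => univ.filter (B k)).card := by
    apply Finset.card_le_card
    intro ω hω
    obtain ⟨k, hk, hB⟩ := h ω (Finset.mem_filter.1 hω).2
    exact Finset.mem_biUnion.2 ⟨k, hk, Finset.mem_filter.2 ⟨Finset.mem_univ _, hB⟩⟩
  have h2 := h1.trans Finset.card_biUnion_le
  exact_mod_cast h2

theorem pr_indep {ι : Type} [Fintype ι] (D D' : Finset ι) (A B : (ι → Bool) → Prop)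
    (hD : Disjoint D D') (hA : ∀ ω ω', (∀ i ∈ D, ω i = ω' i) → (A ω ↔ A ω'))
    (hB : ∀ ω ω', (∀ i ∈ D', ω i = ω' i) → (B ω ↔ B ω')) :
    pr (fun ω => A ω ∧ B ω) = pr A * pr B := by
  obtain ⟨C, hC⟩ : ∃ C : (ι → Bool) → Prop, C = fun ω => A ω ∧ B ω := ⟨_, rfl⟩
  rw [← hC]
  have hC' : ∀ ω, C ω ↔ (A ω ∧ B ω) := fun ω => by rw [hC]
  have key : ((univ.filter C) ×ˢ
      (univ : Finset (ι → Bool))).card =
      ((univ.filter A) ×ˢ (univ.filter B)).card := by
    let σ : ((ι → Bool) × (ι → Bool)) → ((ι → Bool) × (ι → Bool)) := fun q =>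
      (fun i => if i ∈ D' then q.2 i else q.1 i, fun i => if i ∈ D' then q.1 i else q.2 i)
    have hσ : ∀ q, σ (σ q) = q := by
      intro q
      apply Prod.ext
      · funext i
        by_cases hi : i ∈ D' <;> simp [σ, hi]
      · funext i
        by_cases hi : i ∈ D' <;> simp [σ, hi]
    refine Finset.card_nbij' σ σ ?_ ?_ (fun q _ => hσ q) (fun q _ => hσ q)
    · intro q hq
      have hq' := (Finset.mem_product.1 hq).1
      have hAB := (hC' _).1 (Finset.mem_filter.1 hq').2
      refine Finset.mem_product.2 ⟨Finset.mem_filter.2 ⟨Finset.mem_univ _, ?_⟩,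
        Finset.mem_filter.2 ⟨Finset.mem_univ _, ?_⟩⟩
      · refine (hA q.1 _ ?_).1 hAB.1
        intro i hi
        have : i ∉ D' := Finset.disjoint_left.1 hD hi
        simp [σ, this]
      · refine (hB q.1 _ ?_).1 hAB.2
        intro i hi
        simp [σ, hi]
    · intro q hq
      have h1 := (Finset.mem_filter.1 (Finset.mem_product.1 hq).1).2
      have h2 := (Finset.mem_filter.1 (Finset.mem_product.1 hq).2).2
      refine Finset.mem_product.2 ⟨Finset.mem_filter.2 ⟨Finset.mem_univ _, (hC' _).2 ⟨?_, ?_⟩⟩,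
        Finset.mem_univ _⟩
      · refine (hA q.1 _ ?_).1 h1
        intro i hi
        have : i ∉ D' := Finset.disjoint_left.1 hD hi
        simp [σ, this]
      · refine (hB q.2 _ ?_).1 h2
        intro i hi
        simp [σ, hi]
  rw [Finset.card_product, Finset.card_product] at key
  have key' : ((univ.filter C).card : ℝ) *
      (2 : ℝ) ^ Fintype.card ι = ((univ.filter A).card : ℝ) * ((univ.filter B).card : ℝ) := by
    rw [← card_cube]
    exact_mod_cast key
  unfold pr
  have h2 : (2 : ℝ) ^ Fintype.card ι ≠ 0 := by positivity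
  field_simp
  linarith [key']

theorem pr_true {ι : Type} [Fintype ι] (A : (ι → Bool) → Prop) (h : ∀ ω, A ω) : pr A = 1 := by
  unfold pr
  rw [Finset.filter_true_of_mem (fun ω _ => h ω), card_cube]
  exact div_self (by positivity)

theorem pr_single {ι : Type} [Fintype ι] (i : ι) (b : Bool) :
    pr (fun ω : ι → Bool => ω i = b) = 1 / 2 := by
  obtain ⟨C, hC⟩ : ∃ C : (ι → Bool) → Prop, C = fun ω => ω i = b := ⟨_, rfl⟩
  rw [← hC]
  have hC' : ∀ ω, C ω ↔ (ω i = b) := fun ω => by rw [hC]
  let σ : (ι → Bool) → (ι → Bool) := fun ω => Function.update ω i (!(ω i))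
  have hσ : ∀ ω, σ (σ ω) = ω := by
    intro ω
    funext j
    by_cases hj : j = i
    · subst hj
      simp [σ]
    · simp [σ, hj]
  have h1 : (univ.filter C).card = (univ.filter fun ω => ¬ C ω).card := by
    refine Finset.card_nbij' σ σ ?_ ?_ (fun q _ => hσ q) (fun q _ => hσ q)
    · intro ω hω
      have := (hC' _).1 (Finset.mem_filter.1 hω).2
      refine Finset.mem_filter.2 ⟨Finset.mem_univ _, ?_⟩
      rw [hC']
      simp only [σ, Function.update_self]
      rw [this]
      cases b <;> simp
    · intro ω hω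
      have := (Finset.mem_filter.1 hω).2
      refine Finset.mem_filter.2 ⟨Finset.mem_univ _, ?_⟩
      rw [hC'] at this ⊢
      simp only [σ, Function.update_self]
      revert this
      cases ω i <;> cases b <;> simp
  have h2 := Finset.card_filter_add_card_filter_not (s := (univ : Finset (ι → Bool)))
    C
  have h3 : ((univ.filter C).card : ℝ) * 2 =
      (2 : ℝ) ^ Fintype.card ι := by
    rw [← card_cube, ← h2, ← h1]
    push_cast
    ring
  unfold pr
  rw [← h3]
  have : ((univ.filter C).card : ℝ) ≠ 0 := by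
    intro h0
    rw [h0, zero_mul] at h3
    have : (0 : ℝ) < (2 : ℝ) ^ Fintype.card ι := by positivity
    linarith
  field_simp

theorem pr_list {ι : Type} [Fintype ι] : ∀ (F : List (ι × Bool)), (F.map Prod.fst).Nodup →
    pr (fun ω : ι → Bool => ∀ e ∈ F, ω e.1 = e.2) = (1 / 2) ^ F.length
  | [], _ => by
    rw [pr_true _ (by simp)]
    simp
  | e :: F, h => by
    rw [List.map_cons, List.nodup_cons] at h
    have ih := pr_list F h.2
    have h1 : (fun ω : ι → Bool => ∀ e' ∈ e :: F, ω e'.1 = e'.2) =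
        fun ω : ι → Bool => (ω e.1 = e.2) ∧ (∀ e' ∈ F, ω e'.1 = e'.2) := by
      funext ω
      simp only [List.mem_cons, forall_eq_or_imp]
    rw [h1, pr_indep {e.1} ((F.map Prod.fst).toFinset) _ _ ?_ ?_ ?_, ih, pr_single,
      List.length_cons, pow_succ]
    · ring
    · rw [Finset.disjoint_singleton_left]
      simpa using h.1
    · intro ω ω' hω
      rw [hω e.1 (Finset.mem_singleton_self _)]
    · intro ω ω' hω
      have : ∀ e' ∈ F, ω e'.1 = ω' e'.1 := fun e' he' =>
        hω e'.1 (List.mem_toFinset.2 (List.mem_map_of_mem he'))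
      constructor
      · intro h' e' he'
        rw [← this e' he']
        exact h' e' he'
      · intro h' e' he'
        rw [this e' he']
        exact h' e' he'

theorem st_PR : ST_PR := by
  intro ι _
  exact ⟨fun A B h => pr_mono A B h, fun A => ⟨pr_nonneg A, pr_le_one A⟩,
    fun κ F A B h => pr_union κ F A B h, fun F hF => pr_list F hF,
    fun D D' A B hD hA hB => pr_indep D D' A B hD hA hB⟩

end Pool.Agent.Helper66.TC8
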