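import Pool.Agent.Helper86.TC8.Stmts

set_option autoImplicit false

namespace Pool.Agent.Helper66.TC8

open Finset Pool.Agent.Helper86.TC8
open scoped Classical

/-- flip the source bits at the sources `src (ph ω) k` with `c k = true` -/
noncomputable def flipS {V : Type} {m : ℕ} (src : (V → Bool) → Fin m → WS V) (c : Fin m → Bool)
    (ω : Idx V → Bool) : Idx V → Bool := fun i =>
  match i with
  | (none, v) => ω (none, v)
  | (some t, v) => ω (some t, v) ^^ decide (∃ k, c k = true ∧ src (ph ω) k = (t, v))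

theorem ph_flipS {V : Type} {m : ℕ} (src : (V → Bool) → Fin m → WS V) (c : Fin m → Bool)
    (ω : Idx V → Bool) : ph (flipS src c ω) = ph ω := rfl

theorem flipS_flipS {V : Type} {m : ℕ} (src : (V → Bool) → Fin m → WS V) (c : Fin m → Bool)
    (ω : Idx V → Bool) : flipS src c (flipS src c ω) = ω := by
  funext i
  obtain ⟨o, v⟩ := i
  cases o with
  | none => rfl
  | some t =>
    show ((ω (some t, v) ^^ decide (∃ k, c k = true ∧ src (ph ω) k = (t, v))) ^^
      decide (∃ k, c k = true ∧ src (ph (flipS src c ω)) k = (t, v))) = _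
    rw [ph_flipS, Bool.xor_assoc, Bool.xor_self, Bool.xor_false]

theorem sb_flipS {V : Type} {m : ℕ} (src : (V → Bool) → Fin m → WS V) (c : Fin m → Bool)
    (ω : Idx V → Bool) (h : Function.Injective (src (ph ω))) (k : Fin m) :
    sb (flipS src c ω) (src (ph ω) k).1 (src (ph ω) k).2 =
      (sb ω (src (ph ω) k).1 (src (ph ω) k).2 ^^ c k) := by
  show (ω (some (src (ph ω) k).1, (src (ph ω) k).2) ^^
    decide (∃ k', c k' = true ∧ src (ph ω) k' = ((src (ph ω) k).1, (src (ph ω) k).2))) = _
  have : decide (∃ k', c k' = true ∧ src (ph ω) k' = ((src (ph ω) k).1, (src (ph ω) k).2)) = c k := by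
    by_cases hc : c k = true
    · rw [hc, decide_eq_true_iff]
      exact ⟨k, hc, rfl⟩
    · have hc' : c k = false := by simpa using hc
      rw [hc', decide_eq_false_iff_not]
      rintro ⟨k', hk', he⟩
      have : k' = k := h he
      rw [this] at hk'
      exact hc hk'
  rw [this]
  rfl

theorem fiber_bound {ι : Type} [Fintype ι] (m : ℕ) (Q S : (ι → Bool) → Prop)
    (f : (ι → Bool) → (Fin m → Bool)) (T : (Fin m → Bool) → (ι → Bool) → (ι → Bool))
    (hT : ∀ c ω, T c (T c ω) = ω) (hq : ∀ c ω, Q ω → f ω = c → S (T c ω))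
    (hs : ∀ c ω, S ω → Q (T c ω) ∧ f (T c ω) = c) : pr S = (1 / 2) ^ m * pr Q := by
  have h1 : (univ.filter Q).card = ∑ c : Fin m → Bool, ((univ.filter Q).filter fun ω => f ω = c).card :=
    Finset.card_eq_sum_card_fiberwise (fun ω _ => Finset.mem_univ _)
  have h2 : ∀ c : Fin m → Bool, ((univ.filter Q).filter fun ω => f ω = c).card =
      (univ.filter S).card := by
    intro c
    refine Finset.card_nbij' (T c) (T c) ?_ ?_ (fun q _ => hT c q) (fun q _ => hT c q)
    · intro ω hω
      obtain ⟨hω1, hω2⟩ := Finset.mem_filter.1 hω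
      exact Finset.mem_filter.2 ⟨Finset.mem_univ _, hq c ω (Finset.mem_filter.1 hω1).2 hω2⟩
    · intro ω hω
      obtain ⟨h1, h2⟩ := hs c ω (Finset.mem_filter.1 hω).2
      exact Finset.mem_filter.2 ⟨Finset.mem_filter.2 ⟨Finset.mem_univ _, h1⟩, h2⟩
  have h3 : (univ.filter Q).card = 2 ^ m * (univ.filter S).card := by
    rw [h1, Finset.sum_congr rfl (fun c _ => h2 c), Finset.sum_const, Finset.card_univ,
      Fintype.card_fun]
    simp
  have h4 : ((univ.filter Q).card : ℝ) = 2 ^ m * ((univ.filter S).card : ℝ) := by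
    exact_mod_cast h3
  unfold pr
  rw [h4]
  have h5 : (2 : ℝ) ^ m ≠ 0 := by positivity
  rw [one_div, inv_pow]
  field_simp

theorem st_PROD : ST_PROD := by
  intro V _ m A src v hinj
  apply le_of_eq
  refine fiber_bound m _ _ (fun ω k => sb ω (src (ph ω) k).1 (src (ph ω) k).2 ^^ v (ph ω) k)
    (flipS src) (flipS_flipS src) ?_ ?_
  · intro c ω hA hω2
    refine ⟨hA, ?_⟩
    intro k
    rw [ph_flipS, sb_flipS src c ω (hinj _ hA) k, ← hω2]
    show (_ ^^ (_ ^^ _)) = _
    rw [← Bool.xor_assoc, Bool.xor_self, Bool.false_xor]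
  · rintro c ω ⟨hA, hk⟩
    refine ⟨hA, ?_⟩
    funext k
    show (sb (flipS src c ω) (src (ph (flipS src c ω)) k).1 (src (ph (flipS src c ω)) k).2 ^^
      v (ph (flipS src c ω)) k) = c k
    rw [ph_flipS, sb_flipS src c ω (hinj _ hA) k, hk k]
    cases v (ph ω) k <;> cases c k <;> rfl

end Pool.Agent.Helper66.TC8
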