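import Pool.Agent.Helper86.TC8.Stmts
import Pool.Agent.Helper66.TC8.COL

set_option autoImplicit false

namespace Pool.Agent.Helper66.TC8

open Finset Pool.Agent.Helper86.TC8
open scoped Classical

theorem sum2_kw (c c' : L) (st : St) : ∑ x : St, ∑ y : St, kw c st x * kw c' st y = 1 := by
  have : ∀ x : St, ∑ y : St, kw c st x * kw c' st y = kw c st x := by
    intro x
    rw [← Finset.mul_sum, kw_sum, mul_one]
  rw [Finset.sum_congr rfl fun x _ => this x, kw_sum]

theorem lawE_mono_supp (hC : ST_COMB) : ∀ (d : ℕ) (a : L) (st : St) (M M' : Finset Pr → ℝ),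
    (∀ X, pair a st ∈ X → M X ≤ M' X) → lawE d a st M ≤ lawE d a st M'
  | 0, a, st, M, M', h => h _ (Finset.mem_singleton_self _)
  | d + 1, a, st, M, M', h => by
    obtain ⟨hmono, -, -, -, -, -, hp, -⟩ := id hC
    show (∑ x : St, ∑ y : St, kw (k1 a) st x * kw (k2 a) st y *
      lawE d (k1 a) x (fun X => lawE d (k2 a) y (fun Y => M (comb X Y)))) ≤
      ∑ x : St, ∑ y : St, kw (k1 a) st x * kw (k2 a) st y *
      lawE d (k1 a) x (fun X => lawE d (k2 a) y (fun Y => M' (comb X Y)))
    refine Finset.sum_le_sum fun x _ => Finset.sum_le_sum fun y _ => ?_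
    by_cases h1 : kw (k1 a) st x = 0
    · rw [h1]
      simp
    by_cases h2 : kw (k2 a) st y = 0
    · rw [h2]
      simp
    refine mul_le_mul_of_nonneg_left ?_ (mul_nonneg (kw_nonneg _ _ _) (kw_nonneg _ _ _))
    refine lawE_mono_supp hC d _ _ _ _ fun X hX => ?_
    refine lawE_mono_supp hC d _ _ _ _ fun Y hY => ?_
    apply h
    refine hmono _ _ _ _ ?_ ?_ (hp a st x y ((kw_ne _ _ _).1 h1) ((kw_ne _ _ _).1 h2))
    · rwa [Finset.singleton_subset_iff]
    · rwa [Finset.singleton_subset_iff]

theorem lawE_lin : ∀ (d : ℕ) (a : L) (st : St) (M M' : Finset Pr → ℝ) (c c' : ℝ),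
    lawE d a st (fun X => c * M X + c' * M' X) = c * lawE d a st M + c' * lawE d a st M'
  | 0, a, st, M, M', c, c' => rfl
  | d + 1, a, st, M, M', c, c' => by
    show (∑ x : St, ∑ y : St, kw (k1 a) st x * kw (k2 a) st y *
      lawE d (k1 a) x (fun X => lawE d (k2 a) y (fun Y => c * M (comb X Y) + c' * M' (comb X Y)))) =
      c * (∑ x : St, ∑ y : St, kw (k1 a) st x * kw (k2 a) st y *
      lawE d (k1 a) x (fun X => lawE d (k2 a) y (fun Y => M (comb X Y)))) +
      c' * ∑ x : St, ∑ y : St, kw (k1 a) st x * kw (k2 a) st y *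
      lawE d (k1 a) x (fun X => lawE d (k2 a) y (fun Y => M' (comb X Y)))
    rw [Finset.mul_sum, Finset.mul_sum, ← Finset.sum_add_distrib]
    refine Finset.sum_congr rfl fun x _ => ?_
    rw [Finset.mul_sum, Finset.mul_sum, ← Finset.sum_add_distrib]
    refine Finset.sum_congr rfl fun y _ => ?_
    have h1 : (fun X => lawE d (k2 a) y (fun Y => c * M (comb X Y) + c' * M' (comb X Y))) =
        fun X => c * lawE d (k2 a) y (fun Y => M (comb X Y)) +
          c' * lawE d (k2 a) y (fun Y => M' (comb X Y)) := by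
      funext X
      exact lawE_lin d (k2 a) y (fun Y => M (comb X Y)) (fun Y => M' (comb X Y)) c c'
    rw [h1, lawE_lin d (k1 a) x]
    ring

theorem lawE_one : ∀ (d : ℕ) (a : L) (st : St), lawE d a st (fun _ => 1) = 1
  | 0, _, _ => rfl
  | d + 1, a, st => by
    show (∑ x : St, ∑ y : St, kw (k1 a) st x * kw (k2 a) st y *
      lawE d (k1 a) x (fun X => lawE d (k2 a) y (fun Y => 1))) = 1
    refine Eq.trans ?_ (sum2_kw (k1 a) (k2 a) st)
    refine Finset.sum_congr rfl fun x _ => Finset.sum_congr rfl fun y _ => ?_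
    have h1 : (fun _ : Finset Pr => lawE d (k2 a) y (fun _ => 1)) = fun _ => (1 : ℝ) := by
      funext X
      exact lawE_one d (k2 a) y
    rw [h1, lawE_one d (k1 a) x, mul_one]

theorem lawE_const (d : ℕ) (a : L) (st : St) (c : ℝ) : lawE d a st (fun _ => c) = c := by
  have h := lawE_lin d a st (fun _ => 1) (fun _ => 1) c 0
  simp only [lawE_one, mul_one, add_zero] at h
  exact h

/-- the basic two-children estimate: if `g` of the combination is at least
`1 - (1-f)(1-f) - (1-h) - (1-h)` on admissible sets -/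
theorem two_child (hC : ST_COMB) (d : ℕ) (a : L) (st : St) (f h g : Finset Pr → ℝ) (u w : ℝ)
    (hu : 0 ≤ u) (hf1 : ∀ X, f X ≤ 1)
    (hf : ∀ a st, 1 - lawE d a st f ≤ u) (hh : ∀ a st, 1 - lawE d a st h ≤ w)
    (hg : ∀ X Y, (X ∩ full).Nonempty → (Y ∩ full).Nonempty →
      1 - (1 - f X) * (1 - f Y) - (1 - h X) - (1 - h Y) ≤ g (comb X Y)) :
    1 - lawE (d + 1) a st g ≤ u ^ 2 + 2 * w := by
  have hC' := hC
  obtain ⟨hmono, -, -, -, -, -, hp, hpf⟩ := hC
  have key : ∀ (a1 a2 : L) (x y : St), 1 - u ^ 2 - 2 * w ≤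
      lawE d a1 x (fun X => lawE d a2 y (fun Y => g (comb X Y))) := by
    intro a1 a2 x y
    have h1 : ∀ X, pair a1 x ∈ X →
        (1 - f X) * (lawE d a2 y f - 1) + h X - 1 + lawE d a2 y h ≤
        lawE d a2 y (fun Y => g (comb X Y)) := by
      intro X hX
      have h2 : lawE d a2 y (fun Y => (1 - f X) * f Y + 1 * h Y) +
          (-(1 - f X) + h X - 1) ≤ lawE d a2 y (fun Y => g (comb X Y)) := by
        have h3 : lawE d a2 y (fun Y => 1 * ((1 - f X) * f Y + 1 * h Y) +
            (-(1 - f X) + h X - 1) * 1) ≤ lawE d a2 y (fun Y => g (comb X Y)) := by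
          refine lawE_mono_supp hC' d _ _ _ _ fun Y hY => ?_
          have := hg X Y ⟨_, Finset.mem_inter.2 ⟨hX, hpf a1 x⟩⟩ ⟨_, Finset.mem_inter.2 ⟨hY, hpf a2 y⟩⟩
          nlinarith
        rw [lawE_lin d a2 y (fun Y => (1 - f X) * f Y + 1 * h Y) (fun _ => 1) 1
          (-(1 - f X) + h X - 1), lawE_one] at h3
        linarith
      rw [lawE_lin] at h2
      linarith
    have h4 : lawE d a1 x (fun X => 1 * ((1 - lawE d a2 y f) * f X + 1 * h X) +
        ((lawE d a2 y f - 1) - 1 + lawE d a2 y h) * 1) ≤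
        lawE d a1 x (fun X => lawE d a2 y (fun Y => g (comb X Y))) := by
      refine lawE_mono_supp hC' d _ _ _ _ fun X hX => ?_
      have := h1 X hX
      nlinarith
    rw [lawE_lin d a1 x (fun X => (1 - lawE d a2 y f) * f X + 1 * h X) (fun _ => 1) 1, lawE_lin,
      lawE_one] at h4
    have h5 := hf a1 x
    have h6 := hf a2 y
    have h7 := hh a1 x
    have h8 := hh a2 y
    have h9 : 0 ≤ 1 - lawE d a1 x f := by
      have := lawE_mono_supp hC' d a1 x f (fun _ => 1) (fun X _ => hf1 X)
      rw [lawE_one] at this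
      linarith
    have h10 : 0 ≤ 1 - lawE d a2 y f := by
      have := lawE_mono_supp hC' d a2 y f (fun _ => 1) (fun X _ => hf1 X)
      rw [lawE_one] at this
      linarith
    have h11 : (1 - lawE d a1 x f) * (1 - lawE d a2 y f) ≤ u * u :=
      mul_le_mul h5 h6 h10 hu
    nlinarith
  have h12 : (1 - u ^ 2 - 2 * w) ≤ lawE (d + 1) a st g := by
    show _ ≤ ∑ x : St, ∑ y : St, kw (k1 a) st x * kw (k2 a) st y *
      lawE d (k1 a) x (fun X => lawE d (k2 a) y (fun Y => g (comb X Y)))
    calc (1 - u ^ 2 - 2 * w) = (∑ x : St, ∑ y : St, kw (k1 a) st x * kw (k2 a) st y) *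
          (1 - u ^ 2 - 2 * w) := by rw [sum2_kw, one_mul]
      _ = ∑ x : St, ∑ y : St, kw (k1 a) st x * kw (k2 a) st y * (1 - u ^ 2 - 2 * w) := by
          rw [Finset.sum_mul]
          refine Finset.sum_congr rfl fun x _ => ?_
          rw [Finset.sum_mul]
      _ ≤ _ := by
          refine Finset.sum_le_sum fun x _ => Finset.sum_le_sum fun y _ => ?_
          exact mul_le_mul_of_nonneg_left (key _ _ _ _)
            (mul_nonneg (kw_nonneg _ _ _) (kw_nonneg _ _ _))
  linarith

theorem ite_aux (p q r s c : Prop) [Decidable p] [Decidable q] [Decidable r] [Decidable s]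
    [Decidable c] (h1 : p → s → c) (h2 : q → r → c) :
    1 - (1 - (if p then (1 : ℝ) else 0)) * (1 - (if q then (1 : ℝ) else 0)) -
      (1 - (if r then (1 : ℝ) else 0)) - (1 - (if s then (1 : ℝ) else 0)) ≤
      (if c then (1 : ℝ) else 0) := by
  by_cases hc : c
  · rw [if_pos hc]
    by_cases hp : p <;> by_cases hq : q <;> by_cases hr : r <;> by_cases hs : s <;>
      simp only [hp, hq, hr, hs, if_true, if_false] <;> norm_num
  · rw [if_neg hc]
    by_cases hp : p
    · have hs : ¬ s := fun hs => hc (h1 hp hs)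
      rw [if_pos hp, if_neg hs]
      split_ifs <;> norm_num
    · by_cases hq : q
      · have hr : ¬ r := fun hr => hc (h2 hq hr)
        rw [if_pos hq, if_neg hr]
        split_ifs <;> norm_num
      · rw [if_neg hp, if_neg hq]
        split_ifs <;> norm_num

theorem rec_main (hC : ST_COMB) : ST_REC := by
  intro d u w v hu hw hv hf hh hv' a st
  obtain ⟨hmono, hfull, hG, hup, hHG, hHfull, hp, hpf⟩ := hC
  have hC' : ST_COMB := ⟨hmono, hfull, hG, hup, hHG, hHfull, hp, hpf⟩
  refine ⟨?_, ?_, ?_⟩
  · refine two_child hC' d a st (fun X => if X = full then 1 else 0)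
      (fun X => if InH X then 1 else 0) (fun X => if X = full then 1 else 0) u w hu ?_ hf hh ?_
    · intro X
      split_ifs <;> norm_num
    · intro X Y _ _
      have h1 : X = full → InH Y → comb X Y = full := by
        intro hX hY
        rw [hX]
        exact hY.2
      have h2 : Y = full → InH X → comb X Y = full := by
        intro hY hX
        rw [hY]
        exact hX.1
      exact ite_aux _ _ _ _ _ h1 h2
  · refine two_child hC' d a st (fun X => if X = full then 1 else 0)
      (fun X => if InG X then 1 else 0) (fun X => if InH X then 1 else 0) u v hu ?_ hf hv' ?_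
    · intro X
      split_ifs <;> norm_num
    · intro X Y _ _
      have h1 : X = full → InG Y → InH (comb X Y) := by
        intro hX hY
        rw [hX]
        exact hY.2
      have h2 : Y = full → InG X → InH (comb X Y) := by
        intro hY hX
        rw [hY]
        exact hX.1
      exact ite_aux _ _ _ _ _ h1 h2
  · have := two_child hC' d a st (fun X => if X = full then 1 else 0)
      (fun _ => 1) (fun X => if InG X then 1 else 0) u 0 hu ?_ hf ?_ ?_
    · have h0 : u ^ 2 + 2 * 0 = u ^ 2 := by ring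
      rw [h0] at this
      exact this
    · intro X
      split_ifs <;> norm_num
    · intro a st
      rw [lawE_one]
      norm_num
    · intro X Y hX0 hY0
      have h1 : X = full → InG (comb X Y) := by
        intro hX
        rw [hX]
        exact (hG Y hY0).1
      have h2 : Y = full → InG (comb X Y) := by
        intro hY
        rw [hY]
        exact (hG X hX0).2
      by_cases hX : X = full
      · rw [if_pos (h1 hX), if_pos hX]
        norm_num
      · by_cases hY : Y = full
        · rw [if_pos (h2 hY), if_pos hY]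
          norm_num
        · rw [if_neg hX, if_neg hY]
          split_ifs <;> norm_num

theorem st_REC : ST_COMB → ST_LAWT → ST_REC := fun hC _ => rec_main hC

end Pool.Agent.Helper66.TC8
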